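import Pool.Agent.H92.RR.Targets

/-!
# MP_34b97f_an, row RODS: eigenfunctions of a rationally almost periodic system
-/

set_option autoImplicit false

open MeasureTheory Filter Topology Finset
open scoped ENNReal

namespace Pool.Agent.H7.RR

open Pool.Agent.H92.RR Pool.Agent.H89.MT

theorem pow_app {E : Type*} [NormedAddCommGroup E] [NormedSpace ℂ E] (f : E →L[ℂ] E) (n : ℕ)
    (x : E) : (f ^ n) x = f^[n] x := by
  induction n generalizing x with
  | zero => rfl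
  | succ n ih =>
    rw [pow_succ, Function.iterate_succ_apply, ← ih (f x)]
    rfl

/-- a vector which is almost fixed by all powers of a contraction is close to a fixed vector -/
theorem hilbert_fix {E : Type*} [NormedAddCommGroup E] [InnerProductSpace ℂ E] [CompleteSpace E]
    (f : E →L[ℂ] E) (hf : ‖f‖ ≤ 1) (x : E) (ε : ℝ) (h : ∀ m : ℕ, ‖(f ^ m) x - x‖ ≤ ε) :
    ∃ y, f y = y ∧ ‖x - y‖ ≤ ε := by
  have ht := f.tendsto_birkhoffAverage_orthogonalProjection hf x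
  obtain ⟨y, hy⟩ : ∃ y : (f.eqLocus (1 : E →L[ℂ] E)),
    y = (f.eqLocus (1 : E →L[ℂ] E)).orthogonalProjectionOnto x := ⟨_, rfl⟩
  rw [← hy] at ht
  refine ⟨(y : E), ?_, ?_⟩
  · have h1 : f (y : E) = (1 : E →L[ℂ] E) (y : E) := y.2
    simpa using h1
  · have h2 : Tendsto (fun N => ‖x - birkhoffAverage ℂ f _root_.id N x‖) atTop
        (𝓝 ‖x - (y : E)‖) := (tendsto_const_nhds.sub ht).norm
    refine le_of_tendsto h2 ?_
    filter_upwards [eventually_ge_atTop 1] with N hN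
    have hN0 : (N : ℂ) ≠ 0 := by
      have : N ≠ 0 := by omega
      exact_mod_cast this
    have e1 : x - birkhoffAverage ℂ f _root_.id N x
        = (N : ℂ)⁻¹ • ∑ n ∈ Finset.range N, (x - (f ^ n) x) := by
      unfold birkhoffAverage birkhoffSum
      rw [Finset.sum_sub_distrib, Finset.sum_const, Finset.card_range, smul_sub,
        ← Nat.cast_smul_eq_nsmul ℂ, smul_smul, inv_mul_cancel₀ hN0, one_smul]
      congr 2
      refine Finset.sum_congr rfl fun n _ => ?_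
      show f^[n] x = (f ^ n) x
      rw [pow_app]
    rw [e1, norm_smul, norm_inv, Complex.norm_natCast]
    have e2 : ‖∑ n ∈ Finset.range N, (x - (f ^ n) x)‖ ≤ N * ε := by
      refine (norm_sum_le _ _).trans ?_
      calc ∑ n ∈ Finset.range N, ‖x - (f ^ n) x‖ ≤ ∑ _n ∈ Finset.range N, ε :=
            Finset.sum_le_sum fun n _ => by rw [norm_sub_rev]; exact h n
        _ = N * ε := by rw [Finset.sum_const, Finset.card_range, nsmul_eq_mul]
    have hN1 : (0 : ℝ) < N := by exact_mod_cast hN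
    calc (N : ℝ)⁻¹ * ‖∑ n ∈ Finset.range N, (x - (f ^ n) x)‖ ≤ (N : ℝ)⁻¹ * (N * ε) :=
          mul_le_mul_of_nonneg_left e2 (inv_nonneg.2 hN1.le)
      _ = ε := by field_simp

/-- a vector fixed by `f ^ q` is a sum of eigenvectors with roots of unity as eigenvalues -/
theorem eigen_sum {E : Type*} [NormedAddCommGroup E] [NormedSpace ℂ E]
    (f : E →L[ℂ] E) (q : ℕ) (hq : 0 < q) (y : E) (hy : (f ^ q) y = y) :
    ∃ (G : Fin q → E) (ζ : Fin q → ℂ), (∀ i, ζ i ^ q = 1 ∧ f (G i) = ζ i • G i) ∧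
      ∑ i, G i = y := by
  have hqc : (q : ℂ) ≠ 0 := by exact_mod_cast hq.ne'
  obtain ⟨w, hw⟩ : ∃ w : ℂ, IsPrimitiveRoot w q := ⟨_, Complex.isPrimitiveRoot_exp q hq.ne'⟩
  have hw0 : w ≠ 0 := hw.ne_zero hq.ne'
  have hwq : w ^ q = 1 := hw.pow_eq_one
  refine ⟨fun i => (q : ℂ)⁻¹ • ∑ r ∈ Finset.range q, (w ^ (i : ℕ))⁻¹ ^ r • (f ^ r) y,
    fun i => w ^ (i : ℕ), fun i => ⟨?_, ?_⟩, ?_⟩
  · rw [← pow_mul, mul_comm, pow_mul, hwq, one_pow]
  · -- eigenvector
    obtain ⟨z, hz⟩ : ∃ z : ℂ, z = w ^ (i : ℕ) := ⟨_, rfl⟩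
    have hz0 : z ≠ 0 := by rw [hz]; exact pow_ne_zero _ hw0
    have hzq : z ^ q = 1 := by rw [hz, ← pow_mul, mul_comm, pow_mul, hwq, one_pow]
    show f ((q : ℂ)⁻¹ • ∑ r ∈ Finset.range q, (w ^ (i : ℕ))⁻¹ ^ r • (f ^ r) y)
      = w ^ (i : ℕ) • ((q : ℂ)⁻¹ • ∑ r ∈ Finset.range q, (w ^ (i : ℕ))⁻¹ ^ r • (f ^ r) y)
    rw [← hz, map_smul, map_sum, smul_comm]
    congr 1
    rw [Finset.smul_sum]
    have e1 : ∀ r, f (z⁻¹ ^ r • (f ^ r) y) = z • (z⁻¹ ^ (r + 1) • (f ^ (r + 1)) y) := by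
      intro r
      rw [map_smul, smul_smul, pow_succ' z⁻¹ r, ← mul_assoc, mul_inv_cancel₀ hz0, one_mul,
        pow_succ' f r]
      rfl
    rw [Finset.sum_congr rfl fun r _ => e1 r]
    have e2 := Finset.sum_range_succ' (fun r => z • (z⁻¹ ^ r • (f ^ r) y)) q
    have e3 := Finset.sum_range_succ (fun r => z • (z⁻¹ ^ r • (f ^ r) y)) q
    rw [e3] at e2
    have e4 : z • (z⁻¹ ^ q • (f ^ q) y) = z • (z⁻¹ ^ 0 • (f ^ 0) y) := by
      rw [hy, inv_pow, hzq, inv_one, pow_zero, pow_zero]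
      rfl
    rw [e4] at e2
    exact (add_right_cancel e2).symm
  · -- the sum
    show ∑ i : Fin q, (q : ℂ)⁻¹ • ∑ r ∈ Finset.range q, (w ^ (i : ℕ))⁻¹ ^ r • (f ^ r) y = y
    rw [← Finset.smul_sum, Finset.sum_comm]
    have e1 : ∀ r ∈ Finset.range q, ∑ i : Fin q, (w ^ (i : ℕ))⁻¹ ^ r • (f ^ r) y
        = (if r = 0 then (q : ℂ) • y else 0) := by
      intro r hr
      rw [← Finset.sum_smul]
      have e2 : ∑ i : Fin q, (w ^ (i : ℕ))⁻¹ ^ r = ∑ i ∈ Finset.range q, ((w ^ r)⁻¹) ^ i := by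
        rw [Finset.sum_range fun i => ((w ^ r)⁻¹) ^ i]
        refine Finset.sum_congr rfl fun i _ => ?_
        rw [← inv_pow, ← inv_pow, ← pow_mul, ← pow_mul, mul_comm]
      rw [e2]
      by_cases h0 : r = 0
      · rw [if_pos h0, h0]
        simp
      · rw [if_neg h0]
        have h1 : (w ^ r)⁻¹ ≠ 1 := by
          intro h
          have h2 : w ^ r = 1 := by rw [← inv_inv (w ^ r), h, inv_one]
          exact hw.pow_ne_one_of_pos_of_lt h0 (Finset.mem_range.1 hr) h2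
        have h3 := mul_geom_sum ((w ^ r)⁻¹) q
        have h4 : ((w ^ r)⁻¹) ^ q = 1 := by
          rw [inv_pow, ← pow_mul, mul_comm, pow_mul, hwq, one_pow, inv_one]
        rw [h4, sub_self] at h3
        have h5 : ∑ i ∈ Finset.range q, ((w ^ r)⁻¹) ^ i = 0 :=
          (mul_eq_zero.1 h3).resolve_left (sub_ne_zero.2 h1)
        rw [h5, zero_smul]
    rw [Finset.sum_congr rfl e1, Finset.sum_ite_eq' (Finset.range q) 0,
      if_pos (Finset.mem_range.2 hq), smul_smul, inv_mul_cancel₀ hqc, one_smul]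

/-- monomials -/
noncomputable def mA (J : Finset ℤ) (a : ℤ → ℕ) : X → ℂ :=
  fun x => ((∏ j ∈ J, (x j : ℝ) ^ a j : ℝ) : ℂ)

theorem abs_coord (x : X) (j : ℤ) : |(x j : ℝ)| ≤ 1 := abs_le.2 ⟨(x j).2.1, (x j).2.2⟩

theorem pow_diff (s t : ℝ) (hs : |s| ≤ 1) (ht : |t| ≤ 1) (n : ℕ) : |s ^ n - t ^ n| ≤ n * |s - t| := by
  induction n with
  | zero => simp
  | succ n ih =>
    have e : s ^ (n + 1) - t ^ (n + 1) = s * (s ^ n - t ^ n) + (s - t) * t ^ n := by ring
    rw [e]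
    refine (abs_add_le _ _).trans ?_
    rw [abs_mul, abs_mul]
    have h1 : |s| * |s ^ n - t ^ n| ≤ 1 * (n * |s - t|) :=
      mul_le_mul hs ih (abs_nonneg _) zero_le_one
    have h2 : |s - t| * |t ^ n| ≤ |s - t| * 1 := by
      refine mul_le_mul_of_nonneg_left ?_ (abs_nonneg _)
      rw [abs_pow]
      exact pow_le_one₀ (abs_nonneg _) ht
    push_cast
    linarith

theorem prod_diff (x y : X) (J : Finset ℤ) (a : ℤ → ℕ) :
    |∏ j ∈ J, (x j : ℝ) ^ a j - ∏ j ∈ J, (y j : ℝ) ^ a j| ≤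
      ∑ j ∈ J, (a j : ℝ) * |(x j : ℝ) - y j| := by
  classical
  induction J using Finset.induction_on with
  | empty => simp
  | insert j J hj ih =>
    rw [Finset.prod_insert hj, Finset.prod_insert hj, Finset.sum_insert hj]
    have e : (x j : ℝ) ^ a j * ∏ j ∈ J, (x j : ℝ) ^ a j - (y j : ℝ) ^ a j * ∏ j ∈ J, (y j : ℝ) ^ a j
        = ((x j : ℝ) ^ a j - (y j : ℝ) ^ a j) * ∏ j ∈ J, (x j : ℝ) ^ a j
          + (y j : ℝ) ^ a j * (∏ j ∈ J, (x j : ℝ) ^ a j - ∏ j ∈ J, (y j : ℝ) ^ a j) := by ring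
    rw [e]
    refine (abs_add_le _ _).trans (add_le_add ?_ ?_)
    · rw [abs_mul]
      have h1 : |∏ j ∈ J, (x j : ℝ) ^ a j| ≤ 1 := by
        rw [Finset.abs_prod]
        refine Finset.prod_le_one (fun _ _ => abs_nonneg _) fun i _ => ?_
        rw [abs_pow]
        exact pow_le_one₀ (abs_nonneg _) (abs_coord x i)
      calc _ ≤ ((a j : ℝ) * |(x j : ℝ) - y j|) * 1 :=
            mul_le_mul (pow_diff _ _ (abs_coord x j) (abs_coord y j) _) h1 (abs_nonneg _)
              (by positivity)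
        _ = _ := mul_one _
    · rw [abs_mul, abs_pow]
      calc _ ≤ 1 * (∑ j ∈ J, (a j : ℝ) * |(x j : ℝ) - y j|) :=
            mul_le_mul (pow_le_one₀ (abs_nonneg _) (abs_coord y j)) ih (abs_nonneg _) zero_le_one
        _ = _ := one_mul _

theorem cont_prod (J : Finset ℤ) (a : ℤ → ℕ) :
    Continuous fun x : X => ∏ j ∈ J, (x j : ℝ) ^ a j :=
  continuous_finsetProd J fun j _ => (continuous_subtype_val.comp (continuous_apply j)).pow _

theorem cont_mA (J : Finset ℤ) (a : ℤ → ℕ) : Continuous (mA J a) :=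
  Complex.continuous_ofReal.comp (cont_prod J a)

theorem norm_mA_le (J : Finset ℤ) (a : ℤ → ℕ) (x : X) : ‖mA J a x‖ ≤ 1 := by
  unfold mA
  rw [Complex.norm_real, Real.norm_eq_abs, Finset.abs_prod]
  refine Finset.prod_le_one (fun _ _ => abs_nonneg _) fun i _ => ?_
  rw [abs_pow]
  exact pow_le_one₀ (abs_nonneg _) (abs_coord x i)

theorem memLp_cont (α : Measure X) [IsProbabilityMeasure α] (f : X → ℂ) (hf : Continuous f)
    (C : ℝ) (hC : ∀ x, ‖f x‖ ≤ C) : MemLp f 2 α :=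
  MemLp.of_bound hf.aestronglyMeasurable C (Eventually.of_forall hC)

theorem cont_shift : Continuous shift := continuous_pi fun m => continuous_apply (m + 1)

theorem iter_shift (n : ℕ) (x : X) (m : ℤ) : (shift^[n] x) m = x (m + n) := by
  induction n generalizing x m with
  | zero => simp
  | succ n ih =>
    rw [Function.iterate_succ_apply, ih]
    show x (m + n + 1) = x (m + ((n + 1 : ℕ) : ℤ))
    congr 1
    push_cast
    ring

/-- the Koopman operator -/
noncomputable def Ko (α : Measure X) (hS : MeasurePreserving shift α α) :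
    Lp ℂ 2 α →L[ℂ] Lp ℂ 2 α :=
  (Lp.compMeasurePreservingₗᵢ ℂ shift hS).toContinuousLinearMap

theorem Ko_norm (α : Measure X) (hS : MeasurePreserving shift α α) : ‖Ko α hS‖ ≤ 1 :=
  LinearIsometry.norm_toContinuousLinearMap_le _

theorem Ko_pow_norm (α : Measure X) (hS : MeasurePreserving shift α α) (n : ℕ) :
    ‖(Ko α hS) ^ n‖ ≤ 1 := by
  induction n with
  | zero =>
    rw [pow_zero]
    exact ContinuousLinearMap.norm_id_le
  | succ n ih =>
    rw [pow_succ]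
    refine (norm_mul_le _ _).trans ?_
    exact mul_le_one₀ ih (norm_nonneg _) (Ko_norm α hS)

theorem Ko_pow_toLp (α : Measure X) (hS : MeasurePreserving shift α α) (f : X → ℂ)
    (hf : MemLp f 2 α) (n : ℕ) :
    ((Ko α hS) ^ n) (hf.toLp f) = (hf.comp_measurePreserving (hS.iterate n)).toLp _ := by
  induction n with
  | zero => rfl
  | succ n ih =>
    have e1 : ((Ko α hS) ^ (n + 1)) (hf.toLp f) = Ko α hS (((Ko α hS) ^ n) (hf.toLp f)) := by
      rw [pow_succ']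
      rfl
    rw [e1, ih]
    have e2 := Lp.toLp_compMeasurePreserving (hf.comp_measurePreserving (hS.iterate n)) hS
    have e3 : Ko α hS ((hf.comp_measurePreserving (hS.iterate n)).toLp _)
        = Lp.compMeasurePreserving shift hS
          ((hf.comp_measurePreserving (hS.iterate n)).toLp _) := rfl
    rw [e3, e2]
    rfl

/-- almost periodicity of a vector -/
def Good (α : Measure X) (hS : MeasurePreserving shift α α) (x : Lp ℂ 2 α) : Prop :=
  ∀ ε : ℝ, 0 < ε → ∃ η : ℝ, 0 < η ∧ ∀ q : ℕ,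
    (∀ (m : ℕ) (j : ℤ), ∫ z, |(z (j + q * m) : ℝ) - z j| ∂α ≤ η) →
      ∀ m : ℕ, ‖((Ko α hS) ^ (q * m)) x - x‖ ≤ ε

theorem good_add (α : Measure X) (hS : MeasurePreserving shift α α) (x y : Lp ℂ 2 α)
    (hx : Good α hS x) (hy : Good α hS y) : Good α hS (x + y) := by
  intro ε hε
  obtain ⟨η, h1, h2⟩ := hx (ε / 2) (by positivity)
  obtain ⟨η', h1', h2'⟩ := hy (ε / 2) (by positivity)
  refine ⟨min η η', lt_min h1 h1', fun q hq m => ?_⟩
  have a1 := h2 q (fun m j => (hq m j).trans (min_le_left _ _)) m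
  have a2 := h2' q (fun m j => (hq m j).trans (min_le_right _ _)) m
  have e : ((Ko α hS) ^ (q * m)) (x + y) - (x + y)
      = (((Ko α hS) ^ (q * m)) x - x) + (((Ko α hS) ^ (q * m)) y - y) := by
    rw [map_add]
    abel
  rw [e]
  exact (norm_add_le _ _).trans (by linarith)

theorem good_smul (α : Measure X) (hS : MeasurePreserving shift α α) (c : ℂ) (x : Lp ℂ 2 α)
    (hx : Good α hS x) : Good α hS (c • x) := by
  intro ε hε
  have hc : 0 < ‖c‖ + 1 := by positivity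
  obtain ⟨η, h1, h2⟩ := hx (ε / (‖c‖ + 1)) (by positivity)
  refine ⟨η, h1, fun q hq m => ?_⟩
  have a1 := h2 q hq m
  have e : ((Ko α hS) ^ (q * m)) (c • x) - (c • x) = c • (((Ko α hS) ^ (q * m)) x - x) := by
    rw [map_smul, smul_sub]
  rw [e, norm_smul]
  calc ‖c‖ * ‖((Ko α hS) ^ (q * m)) x - x‖ ≤ (‖c‖ + 1) * (ε / (‖c‖ + 1)) :=
        mul_le_mul (by linarith) a1 (norm_nonneg _) hc.le
    _ = ε := by field_simp

theorem good_sum (α : Measure X) (hS : MeasurePreserving shift α α) {ι : Type} (s : Finset ι)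
    (x : ι → Lp ℂ 2 α) (hx : ∀ i ∈ s, Good α hS (x i)) : Good α hS (∑ i ∈ s, x i) := by
  classical
  induction s using Finset.induction_on with
  | empty =>
    intro ε hε
    refine ⟨1, one_pos, fun q _ m => ?_⟩
    rw [Finset.sum_empty, map_zero, sub_zero, norm_zero]
    exact hε.le
  | insert i s hi ih =>
    rw [Finset.sum_insert hi]
    exact good_add α hS _ _ (hx i (Finset.mem_insert_self _ _))
      (ih fun j hj => hx j (Finset.mem_insert_of_mem hj))

theorem good_lim (α : Measure X) (hS : MeasurePreserving shift α α) (x : Lp ℂ 2 α)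
    (h : ∀ ε : ℝ, 0 < ε → ∃ y, Good α hS y ∧ ‖x - y‖ ≤ ε) : Good α hS x := by
  intro ε hε
  obtain ⟨y, hy, hxy⟩ := h (ε / 3) (by positivity)
  obtain ⟨η, h1, h2⟩ := hy (ε / 3) (by positivity)
  refine ⟨η, h1, fun q hq m => ?_⟩
  have a1 := h2 q hq m
  have e : ((Ko α hS) ^ (q * m)) x - x
      = ((Ko α hS) ^ (q * m)) (x - y) + ((((Ko α hS) ^ (q * m)) y - y) - (x - y)) := by
    rw [map_sub]
    abel
  have a2 : ‖((Ko α hS) ^ (q * m)) (x - y)‖ ≤ 1 * ‖x - y‖ :=
    (((Ko α hS) ^ (q * m)).le_opNorm _).trans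
      (mul_le_mul_of_nonneg_right (Ko_pow_norm α hS _) (norm_nonneg _))
  rw [e]
  refine (norm_add_le _ _).trans ?_
  have a3 := norm_sub_le (((Ko α hS) ^ (q * m)) y - y) (x - y)
  linarith

theorem good_mA (α : Measure X) [IsProbabilityMeasure α] (hS : MeasurePreserving shift α α)
    (J : Finset ℤ) (a : ℤ → ℕ) :
    Good α hS ((memLp_cont α (mA J a) (cont_mA J a) 1 (norm_mA_le J a)).toLp _) := by
  intro ε hε
  obtain ⟨A, hA⟩ : ∃ A : ℝ, A = ∑ j ∈ J, (a j : ℝ) := ⟨_, rfl⟩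
  have hA0 : 0 ≤ A := by
    rw [hA]
    exact Finset.sum_nonneg fun j _ => Nat.cast_nonneg _
  refine ⟨ε ^ 2 / (2 * A + 1), by positivity, fun q hq m => ?_⟩
  obtain ⟨n, hn⟩ : ∃ n, n = q * m := ⟨_, rfl⟩
  rw [← hn, Ko_pow_toLp]
  have hM := memLp_cont α (mA J a) (cont_mA J a) 1 (norm_mA_le J a)
  have hM' := hM.comp_measurePreserving (hS.iterate n)
  have hg : MemLp (mA J a ∘ shift^[n] - mA J a) 2 α := hM'.sub hM
  have e0 : hM'.toLp (mA J a ∘ shift^[n]) - hM.toLp (mA J a)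
      = hg.toLp (mA J a ∘ shift^[n] - mA J a) := by
    rw [MemLp.toLp_sub]
  rw [e0, Lp.norm_toLp, hg.eLpNorm_eq_integral_rpow_norm (by norm_num) (by norm_num)]
  have hint0 : 0 ≤ ∫ x, ‖(mA J a ∘ shift^[n] - mA J a) x‖ ^ (2 : ℝ≥0∞).toReal ∂α :=
    integral_nonneg fun x => Real.rpow_nonneg (norm_nonneg _) _
  rw [ENNReal.toReal_ofReal (Real.rpow_nonneg hint0 _)]
  have h2r : (2 : ℝ≥0∞).toReal = 2 := by norm_num
  rw [h2r] at hint0 ⊢
  -- the integral
  have hcont : ∀ j : ℤ, Continuous fun x : X => |(x (j + q * m) : ℝ) - x j| := fun j =>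
    ((continuous_subtype_val.comp (continuous_apply _)).sub
      (continuous_subtype_val.comp (continuous_apply _))).abs
  have hcint : ∀ j : ℤ, Integrable (fun x : X => |(x (j + q * m) : ℝ) - x j|) α := by
    intro j
    refine Integrable.of_bound (hcont j).aestronglyMeasurable 2 (Eventually.of_forall fun x => ?_)
    rw [Real.norm_eq_abs, abs_abs]
    have b1 := abs_coord x (j + q * m)
    have b2 := abs_coord x j
    have b3 := abs_sub (x (j + q * m) : ℝ) (x j)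
    linarith
  have hpt : ∀ x : X, ‖(mA J a ∘ shift^[n] - mA J a) x‖ ^ (2 : ℝ)
      ≤ ∑ j ∈ J, (2 * (a j : ℝ)) * |(x (j + q * m) : ℝ) - x j| := by
    intro x
    have b1 : ‖(mA J a ∘ shift^[n] - mA J a) x‖
        = |∏ j ∈ J, ((shift^[n] x) j : ℝ) ^ a j - ∏ j ∈ J, (x j : ℝ) ^ a j| := by
      rw [Pi.sub_apply, Function.comp_apply]
      unfold mA
      rw [← Complex.ofReal_sub, Complex.norm_real, Real.norm_eq_abs]
    have b2 := prod_diff (shift^[n] x) x J a
    rw [← b1] at b2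
    have b3 : ‖(mA J a ∘ shift^[n] - mA J a) x‖ ≤ 2 := by
      rw [Pi.sub_apply, Function.comp_apply]
      have c1 := norm_sub_le (mA J a (shift^[n] x)) (mA J a x)
      have c2 := norm_mA_le J a (shift^[n] x)
      have c3 := norm_mA_le J a x
      linarith
    have b4 : ∑ j ∈ J, (2 * (a j : ℝ)) * |(x (j + q * m) : ℝ) - x j|
        = 2 * ∑ j ∈ J, (a j : ℝ) * |((shift^[n] x) j : ℝ) - x j| := by
      rw [Finset.mul_sum]
      refine Finset.sum_congr rfl fun j _ => ?_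
      rw [iter_shift, hn]
      push_cast
      ring
    rw [b4, Real.rpow_two, sq]
    have b5 := norm_nonneg ((mA J a ∘ shift^[n] - mA J a) x)
    nlinarith
  have hle : ∫ x, ‖(mA J a ∘ shift^[n] - mA J a) x‖ ^ (2 : ℝ) ∂α ≤ ε ^ 2 := by
    calc ∫ x, ‖(mA J a ∘ shift^[n] - mA J a) x‖ ^ (2 : ℝ) ∂α
        ≤ ∫ x, ∑ j ∈ J, (2 * (a j : ℝ)) * |(x (j + q * m) : ℝ) - x j| ∂α := by
          refine integral_mono_of_nonneg
            (Eventually.of_forall fun x => Real.rpow_nonneg (norm_nonneg _) _)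
            (integrable_finsetSum _ fun j _ => (hcint j).const_mul _)
            (Eventually.of_forall hpt)
      _ = ∑ j ∈ J, (2 * (a j : ℝ)) * ∫ x, |(x (j + q * m) : ℝ) - x j| ∂α := by
          rw [integral_finsetSum _ fun j _ => (hcint j).const_mul _]
          refine Finset.sum_congr rfl fun j _ => ?_
          rw [integral_const_mul]
      _ ≤ ∑ j ∈ J, (2 * (a j : ℝ)) * (ε ^ 2 / (2 * A + 1)) :=
          Finset.sum_le_sum fun j _ => mul_le_mul_of_nonneg_left (hq m j) (by positivity)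
      _ = 2 * A * (ε ^ 2 / (2 * A + 1)) := by
          rw [← Finset.sum_mul, ← Finset.mul_sum, hA]
      _ ≤ ε ^ 2 := by
          rw [← mul_div_assoc, div_le_iff₀ (by positivity)]
          nlinarith [sq_nonneg ε]
  calc (∫ x, ‖(mA J a ∘ shift^[n] - mA J a) x‖ ^ (2 : ℝ) ∂α) ^ (2 : ℝ)⁻¹
      ≤ (ε ^ 2) ^ (2 : ℝ)⁻¹ := Real.rpow_le_rpow hint0 hle (by norm_num)
    _ = ε := by
        rw [← Real.rpow_two, ← Real.rpow_mul hε.le]
        norm_num

theorem sum_coe (α : Measure X) {ι : Type} (s : Finset ι) (f : ι → X → ℂ)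
    (hf : ∀ i, MemLp (f i) 2 α) (c : ι → ℂ) :
    ((∑ i ∈ s, c i • (hf i).toLp (f i) : Lp ℂ 2 α) : X → ℂ) =ᵐ[α]
      fun x => ∑ i ∈ s, c i * f i x := by
  classical
  induction s using Finset.induction_on with
  | empty =>
    rw [Finset.sum_empty]
    filter_upwards [Lp.coeFn_zero ℂ 2 α] with x hx
    rw [hx]
    simp
  | insert i s hi ih =>
    rw [Finset.sum_insert hi]
    filter_upwards [Lp.coeFn_add (c i • (hf i).toLp (f i)) (∑ i ∈ s, c i • (hf i).toLp (f i)), ih,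
      Lp.coeFn_smul (c i) ((hf i).toLp (f i)), (hf i).coeFn_toLp] with x h1 h2 h3 h4
    rw [h1, Pi.add_apply, h2, h3, Pi.smul_apply, h4, Finset.sum_insert hi, smul_eq_mul]

/-- complex combinations of monomials are dense -/
theorem good_all (hW : T_SWX) (α : Measure X) [IsProbabilityMeasure α]
    (hS : MeasurePreserving shift α α) (F : X → ℂ) (hF : MemLp F 2 α) :
    Good α hS (hF.toLp F) := by
  apply good_lim
  intro ε hε
  obtain ⟨g, hg1, hg2⟩ := hF.exists_boundedContinuous_eLpNorm_sub_le (by norm_num)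
    (ε := ENNReal.ofReal (ε / 2)) (by
      rw [ne_eq, ENNReal.ofReal_eq_zero, not_le]
      positivity)
  obtain ⟨m1, J1, a1, c1, h1⟩ := hW ⟨fun x => (g x).re, Complex.continuous_re.comp g.continuous⟩
    (ε / 4) (by positivity)
  obtain ⟨m2, J2, a2, c2, h2⟩ := hW ⟨fun x => (g x).im, Complex.continuous_im.comp g.continuous⟩
    (ε / 4) (by positivity)
  obtain ⟨y, hy⟩ : ∃ y : Lp ℂ 2 α, y =
      (∑ i, (c1 i : ℂ) • (memLp_cont α (mA (J1 i) (a1 i)) (cont_mA _ _) 1 (norm_mA_le _ _)).toLp _)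
      + Complex.I • (∑ i, (c2 i : ℂ) •
        (memLp_cont α (mA (J2 i) (a2 i)) (cont_mA _ _) 1 (norm_mA_le _ _)).toLp _) := ⟨_, rfl⟩
  refine ⟨y, ?_, ?_⟩
  · rw [hy]
    refine good_add α hS _ _ (good_sum α hS _ _ fun i _ => good_smul α hS _ _ (good_mA α hS _ _))
      (good_smul α hS _ _ (good_sum α hS _ _ fun i _ => good_smul α hS _ _ (good_mA α hS _ _)))
  · -- the distance
    have hgy : ‖hg2.toLp g - y‖ ≤ ε / 2 := by
      have hb : ∀ᵐ x ∂α, ‖(hg2.toLp g - y : Lp ℂ 2 α) x‖ ≤ ε / 2 := by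
        have e1 := sum_coe α Finset.univ (fun i => mA (J1 i) (a1 i))
          (fun i => memLp_cont α (mA (J1 i) (a1 i)) (cont_mA _ _) 1 (norm_mA_le _ _))
          (fun i => (c1 i : ℂ))
        have e2 := sum_coe α Finset.univ (fun i => mA (J2 i) (a2 i))
          (fun i => memLp_cont α (mA (J2 i) (a2 i)) (cont_mA _ _) 1 (norm_mA_le _ _))
          (fun i => (c2 i : ℂ))
        filter_upwards [e1, e2, Lp.coeFn_sub (hg2.toLp g) y, hg2.coeFn_toLp,
          Lp.coeFn_add (∑ i, (c1 i : ℂ) •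
            (memLp_cont α (mA (J1 i) (a1 i)) (cont_mA _ _) 1 (norm_mA_le _ _)).toLp _)
            (Complex.I • (∑ i, (c2 i : ℂ) •
            (memLp_cont α (mA (J2 i) (a2 i)) (cont_mA _ _) 1 (norm_mA_le _ _)).toLp _)),
          Lp.coeFn_smul Complex.I (∑ i, (c2 i : ℂ) •
            (memLp_cont α (mA (J2 i) (a2 i)) (cont_mA _ _) 1 (norm_mA_le _ _)).toLp _)]
          with x g1 g2 g3 g4 g5 g6
        rw [g3, Pi.sub_apply, g4, hy, g5, Pi.add_apply, g6, Pi.smul_apply, g1, g2, smul_eq_mul]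
        have k1 : ∑ i, (c1 i : ℂ) * mA (J1 i) (a1 i) x
            = ((∑ i, c1 i * ∏ j ∈ J1 i, (x j : ℝ) ^ a1 i j : ℝ) : ℂ) := by
          unfold mA
          push_cast
          rfl
        have k2 : ∑ i, (c2 i : ℂ) * mA (J2 i) (a2 i) x
            = ((∑ i, c2 i * ∏ j ∈ J2 i, (x j : ℝ) ^ a2 i j : ℝ) : ℂ) := by
          unfold mA
          push_cast
          rfl
        rw [k1, k2]
        have k3 : (g x : ℂ) - (((∑ i, c1 i * ∏ j ∈ J1 i, (x j : ℝ) ^ a1 i j : ℝ) : ℂ)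
            + Complex.I * ((∑ i, c2 i * ∏ j ∈ J2 i, (x j : ℝ) ^ a2 i j : ℝ) : ℂ))
            = (((g x).re - ∑ i, c1 i * ∏ j ∈ J1 i, (x j : ℝ) ^ a1 i j : ℝ) : ℂ)
              + Complex.I * (((g x).im - ∑ i, c2 i * ∏ j ∈ J2 i, (x j : ℝ) ^ a2 i j : ℝ) : ℂ) := by
          conv_lhs => rw [← Complex.re_add_im (g x)]
          push_cast
          ring
        rw [k3]
        refine (norm_add_le _ _).trans ?_
        rw [norm_mul, Complex.norm_I, one_mul, Complex.norm_real, Complex.norm_real,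
          Real.norm_eq_abs, Real.norm_eq_abs]
        have l1 := h1 x
        have l2 := h2 x
        simp only [ContinuousMap.coe_mk] at l1 l2
        linarith
      refine (Lp.norm_le_of_ae_bound (by positivity) hb).trans ?_
      have hm : measureUnivNNReal α = 1 := by simp [measureUnivNNReal]
      rw [hm]
      simp
    have hFg : ‖hF.toLp F - hg2.toLp g‖ ≤ ε / 2 := by
      rw [← MemLp.toLp_sub, Lp.norm_toLp]
      exact ENNReal.toReal_le_of_le_ofReal (by positivity) hg1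
    calc ‖hF.toLp F - y‖ = ‖(hF.toLp F - hg2.toLp g) + (hg2.toLp g - y)‖ := by
          congr 1
          abel
      _ ≤ ‖hF.toLp F - hg2.toLp g‖ + ‖hg2.toLp g - y‖ := norm_add_le _ _
      _ ≤ ε := by linarith

/-- Row RODS. -/
theorem pf_RODS (hW : T_SWX) : T_ODS := by
  intro α hα hS hq F hF ε hε
  obtain ⟨η, hη, h1⟩ := good_all hW α hS F hF ε hε
  obtain ⟨q, hq0, hq1⟩ := hq η hη
  have h2 := h1 q hq1
  obtain ⟨y, hy, hxy⟩ := hilbert_fix ((Ko α hS) ^ q) (Ko_pow_norm α hS q) (hF.toLp F) ε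
    (fun m => by rw [← pow_mul]; exact h2 m)
  obtain ⟨G, ζ, hG, hsum⟩ := eigen_sum (Ko α hS) q hq0 y hy
  refine ⟨q, fun i => (G i : X → ℂ), ζ, fun i => ⟨Lp.memLp (G i), ⟨q, hq0, (hG i).1⟩, ?_⟩, ?_⟩
  · have e1 : ((Ko α hS (G i) : Lp ℂ 2 α) : X → ℂ) =ᵐ[α] (G i : X → ℂ) ∘ shift :=
      Lp.coeFn_compMeasurePreserving (G i) hS
    rw [(hG i).2] at e1
    filter_upwards [e1, Lp.coeFn_smul (ζ i) (G i)] with x g1 g2
    rw [g2, Pi.smul_apply, smul_eq_mul] at g1
    exact g1.symm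
  · have e1 : (fun x => F x - ∑ i, (G i : X → ℂ) x) =ᵐ[α] ((hF.toLp F - y : Lp ℂ 2 α) : X → ℂ) := by
      have e2 : ((∑ i, G i : Lp ℂ 2 α) : X → ℂ) =ᵐ[α] fun x => ∑ i, (G i : X → ℂ) x := by
        have e3 := sum_coe α Finset.univ (fun i => (G i : X → ℂ)) (fun i => Lp.memLp (G i))
          (fun _ => (1 : ℂ))
        have e4 : (∑ i, (1 : ℂ) • (Lp.memLp (G i)).toLp (G i : X → ℂ) : Lp ℂ 2 α) = ∑ i, G i := by
          refine Finset.sum_congr rfl fun i _ => ?_
          rw [one_smul, Lp.toLp_coeFn]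
        rw [e4] at e3
        filter_upwards [e3] with x g1
        rw [g1]
        refine Finset.sum_congr rfl fun i _ => one_mul _
      rw [← hsum]
      filter_upwards [e2, Lp.coeFn_sub (hF.toLp F) (∑ i, G i), hF.coeFn_toLp] with x g1 g2 g3
      rw [g2, Pi.sub_apply, g1, g3]
    rw [eLpNorm_congr_ae e1]
    have e2 : eLpNorm ((hF.toLp F - y : Lp ℂ 2 α) : X → ℂ) 2 α
        = ENNReal.ofReal ‖hF.toLp F - y‖ := by
      rw [Lp.norm_def, ENNReal.ofReal_toReal (Lp.eLpNorm_ne_top _)]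
    rw [e2]
    exact ENNReal.ofReal_le_ofReal hxy

end Pool.Agent.H7.RR
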